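import Mathlib
import Pool.Agent.H590.NL.Stm

set_option autoImplicit false

/-! Adapted from the planar proof by helper457. -/

noncomputable section

open MeasureTheory Filter Topology Set
open scoped BigOperators

namespace H284NL

open H590NL

/-- integrability of `exp(-c|x|)` -/
theorem int_exp_abs {c : ℝ} (hc : 0 < c) : Integrable (fun x : ℝ => Real.exp (-(|x| * c))) := by
  have h1 : IntegrableOn (fun x : ℝ => Real.exp (-(|x| * c))) (Ioi 0) := by
    have h2 := integrableOn_exp_mul_Ioi (a := -c) (by linarith) 0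
    refine h2.congr_fun (fun x hx => ?_) measurableSet_Ioi
    have hx' : 0 < x := hx
    simp only []
    rw [abs_of_pos hx']
    congr 1
    ring
  have h3 : IntegrableOn (fun x : ℝ => Real.exp (-(|x| * c))) (Iic 0) := by
    have h2 := integrableOn_exp_mul_Iic (a := c) hc 0
    refine h2.congr_fun (fun x hx => ?_) measurableSet_Iic
    have hx' : x ≤ 0 := hx
    simp only []
    rw [abs_of_nonpos hx']
    congr 1
    ring
  have h4 := h3.union h1
  rwa [Iic_union_Ioi, integrableOn_univ] at h4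

theorem int_bound (n : ℕ) (N : ℝ) {c : ℝ} (hc : 0 < c) : Integrable (fun x : V n =>
    Real.exp N * ∏ i, Real.exp (-(|x i| * c))) := by
  refine Integrable.const_mul ?_ _
  exact Integrable.fintype_prod (fun i => int_exp_abs hc)

section

variable {n : ℕ} {κ : Type} [Fintype κ]

/-- sum of squares -/
theorem sum_ip {v : κ → V n} (hv : Nrm v) (x : V n) :
    ∑ k, (ip (v k) x) ^ 2 = ∑ i, x i ^ 2 := by
  have h1 : ∀ k, (ip (v k) x) ^ 2 = ∑ i, ∑ j, x i * x j * (v k i * v k j) := by
    intro k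
    unfold ip
    rw [pow_two, Finset.sum_mul_sum]
    refine Finset.sum_congr rfl fun i _ => Finset.sum_congr rfl fun j _ => ?_
    ring
  simp_rw [h1]
  rw [Finset.sum_comm]
  refine Finset.sum_congr rfl fun i _ => ?_
  rw [Finset.sum_comm]
  simp_rw [← Finset.mul_sum, hv i]
  simp [pow_two]

theorem sum_abs_ge {v : κ → V n} (hv : Nrm v) (x : V n) :
    ∑ i, |x i| * (1 / (n + 1 : ℝ)) ≤ ∑ k, |ip (v k) x| := by
  have h1 : ∑ k, |ip (v k) x| ^ 2 ≤ (∑ k, |ip (v k) x|) ^ 2 :=
    Finset.sum_sq_le_sq_sum_of_nonneg fun k _ => abs_nonneg _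
  have h2 : ∑ k, |ip (v k) x| ^ 2 = ∑ i, x i ^ 2 := by
    simp_rw [sq_abs]
    exact sum_ip hv x
  rw [h2] at h1
  have h3 : 0 ≤ ∑ k, |ip (v k) x| := Finset.sum_nonneg fun k _ => abs_nonneg _
  have h4 : ∀ i, |x i| ≤ ∑ k, |ip (v k) x| := by
    intro i
    refine abs_le_of_sq_le_sq ?_ h3
    refine le_trans ?_ h1
    exact Finset.single_le_sum (f := fun i => x i ^ 2) (fun j _ => sq_nonneg _) (Finset.mem_univ i)
  have h5 : ∑ i, |x i| * (1 / (n + 1 : ℝ)) ≤
      ∑ i : Fin n, (∑ k, |ip (v k) x|) * (1 / (n + 1 : ℝ)) :=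
    Finset.sum_le_sum fun i _ => mul_le_mul_of_nonneg_right (h4 i) (by positivity)
  refine h5.trans ?_
  rw [Finset.sum_const, Finset.card_univ, Fintype.card_fin, nsmul_eq_mul]
  have h6 : (n : ℝ) * ((∑ k, |ip (v k) x|) * (1 / (n + 1 : ℝ))) =
      (n / (n + 1 : ℝ)) * ∑ k, |ip (v k) x| := by ring
  rw [h6]
  have h7 : (n / (n + 1 : ℝ)) ≤ 1 := by
    rw [div_le_one (by positivity)]
    linarith
  exact mul_le_of_le_one_left h3 h7

theorem Ph_ge {q : ℝ} (hq : 1 ≤ q) {v : κ → V n} (hv : Nrm v) (x : V n) :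
    ∑ i, |x i| * (1 / (n + 1 : ℝ)) - Fintype.card κ ≤ Ph q v one x := by
  have h1 : ∀ k : κ, |ip (v k) x| - 1 ≤ one k * |ip (v k) x| ^ q := by
    intro k
    unfold one
    rw [one_mul]
    rcases le_total 1 |ip (v k) x| with h | h
    · have h2 : |ip (v k) x| ^ (1 : ℝ) ≤ |ip (v k) x| ^ q :=
        Real.rpow_le_rpow_of_exponent_le h hq
      rw [Real.rpow_one] at h2
      linarith
    · have h2 : 0 ≤ |ip (v k) x| ^ q := Real.rpow_nonneg (abs_nonneg _) _
      linarith
  have h2 : ∑ k : κ, (|ip (v k) x| - 1) ≤ Ph q v one x := Finset.sum_le_sum fun k _ => h1 k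
  rw [Finset.sum_sub_distrib] at h2
  simp only [Finset.sum_const, Finset.card_univ, nsmul_eq_mul, mul_one] at h2
  have h3 := sum_abs_ge hv x
  linarith

omit [Fintype κ] in
theorem ip_cont (x : V n) (k : κ) :
    Continuous (fun q : ℝ × (κ → V n) => ip (q.2 k) x) := by
  unfold ip
  fun_prop

theorem ip_cont' (v : V n) : Continuous (fun x : V n => ip v x) := by
  unfold ip
  fun_prop

end

theorem CF : S_CF := by
  intro n κ _ p0 hp0 hp2
  intro q0 hq0
  have hq0' : 1 < q0.1 := lt_of_lt_of_le hp0 hq0.1.1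
  have hmem : ∀ᶠ q : ℝ × (κ → V n) in 𝓝[Icc p0 2 ×ˢ {v : κ → V n | Nrm v}] q0,
      q ∈ Icc p0 2 ×ˢ {v : κ → V n | Nrm v} := self_mem_nhdsWithin
  refine MeasureTheory.continuousWithinAt_of_dominated (bound := fun x : V n =>
    Real.exp (Fintype.card κ : ℝ) * ∏ i, Real.exp (-(|x i| * (1 / (n + 1 : ℝ)))))
    ?_ ?_ (int_bound n _ (by positivity)) ?_
  · filter_upwards [hmem] with q hq
    have hq1 : 0 < q.1 := lt_trans one_pos (lt_of_lt_of_le hp0 hq.1.1)
    refine Continuous.aestronglyMeasurable ?_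
    unfold Ph
    refine Real.continuous_exp.comp (Continuous.neg ?_)
    refine continuous_finset_sum _ fun k _ => ?_
    refine continuous_const.mul ?_
    exact (ip_cont' (q.2 k)).abs.rpow_const fun x => Or.inr hq1.le
  · filter_upwards [hmem] with q hq
    refine Eventually.of_forall fun x => ?_
    rw [Real.norm_eq_abs, Real.abs_exp, ← Real.exp_sum, ← Real.exp_add]
    refine Real.exp_le_exp.2 ?_
    have h1 := Ph_ge (lt_of_lt_of_le hp0 hq.1.1).le hq.2 x
    rw [Finset.sum_neg_distrib]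
    linarith
  · refine Eventually.of_forall fun x => ?_
    refine ContinuousAt.continuousWithinAt ?_
    refine Real.continuous_exp.continuousAt.comp ?_
    refine ContinuousAt.neg ?_
    unfold Ph
    refine tendsto_finset_sum _ fun k _ => ?_
    refine ContinuousAt.mul continuousAt_const ?_
    refine ContinuousAt.rpow ?_ continuous_fst.continuousAt (Or.inr (lt_trans one_pos hq0'))
    exact (ip_cont x k).abs.continuousAt

end H284NL
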