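import Pool.Agent.H717.NL.Stmts2

set_option autoImplicit false

/-! # The cluster lemma for MP_26b317_lc, Q2 (subtask by helper284) -/

open Polynomial Finset

namespace Pool.Agent.H717.NL

namespace ClusterL

variable {n : ℕ}

/-- linear combinations of the `u k` -/
def comb (u : Fin n → Fin n → ℝ) (d : Fin n → ℝ) (p : Fin n) : ℝ := ∑ k, d k * u k p

lemma on_dual {u : Fin n → Fin n → ℝ} (hu : ON u) (p q : Fin n) :
    ∑ k, u k p * u k q = if p = q then 1 else 0 := by
  have h1 : (Matrix.of u) * (Matrix.of u).transpose = 1 := by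
    ext i j
    rw [Matrix.mul_apply, Matrix.one_apply]
    exact hu i j
  have h2 : (Matrix.of u).transpose * (Matrix.of u) = 1 := mul_eq_one_comm.1 h1
  have h3 := congrFun (congrFun h2 p) q
  rw [Matrix.mul_apply, Matrix.one_apply] at h3
  exact h3

lemma weight_comb (u : Fin n → Fin n → ℝ) (ω d d' : Fin n → ℝ) :
    ∑ p, ω p * (comb u d p * comb u d' p) =
      ∑ k, ∑ m, d k * d' m * ∑ p, ω p * (u k p * u m p) := by
  unfold comb
  have h1 : ∀ p, ω p * ((∑ k, d k * u k p) * ∑ k, d' k * u k p) =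
      ∑ k, ∑ m, d k * d' m * (ω p * (u k p * u m p)) := by
    intro p
    rw [sum_mul_sum, mul_sum]
    refine sum_congr rfl fun k _ => ?_
    rw [mul_sum]
    refine sum_congr rfl fun m _ => ?_
    ring
  rw [sum_congr rfl (fun p _ => h1 p), sum_comm]
  refine sum_congr rfl fun k _ => ?_
  rw [sum_comm]
  refine sum_congr rfl fun m _ => ?_
  rw [mul_sum]

lemma comb_sq {u : Fin n → Fin n → ℝ} (hu : ON u) (d : Fin n → ℝ) :
    ∑ p, comb u d p ^ 2 = ∑ k, d k ^ 2 := by
  have h1 := weight_comb u (fun _ => 1) d d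
  have h2 : ∀ k m, ∑ p, (1 : ℝ) * (u k p * u m p) = if k = m then 1 else 0 := by
    intro k m
    rw [← hu k m]
    exact sum_congr rfl fun p _ => one_mul _
  have h3 : ∑ p, comb u d p ^ 2 = ∑ p, (1 : ℝ) * (comb u d p * comb u d p) :=
    sum_congr rfl fun p _ => by ring
  rw [h3, h1]
  refine sum_congr rfl fun k _ => ?_
  rw [sum_congr rfl (fun m _ => by rw [h2 k m])]
  rw [sum_congr rfl (fun m _ => mul_ite (k = m) (d k * d m) 1 0)]
  rw [sum_congr rfl (g := fun m => if k = m then d k * d m else 0)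
    (fun m _ => by rw [mul_one, mul_zero])]
  rw [sum_ite_eq, if_pos (mem_univ k), sq]

lemma comb_coef {u : Fin n → Fin n → ℝ} (hu : ON u) (y : Fin n → ℝ) (p : Fin n) :
    comb u (fun k => ∑ s, u k s * y s) p = y p := by
  unfold comb
  have h1 : ∀ k, (∑ s, u k s * y s) * u k p = ∑ s, (u k s * u k p) * y s := by
    intro k
    rw [sum_mul]
    exact sum_congr rfl fun s _ => by ring
  rw [sum_congr rfl (fun k _ => h1 k), sum_comm]
  have h2 : ∀ s, ∑ k, (u k s * u k p) * y s = if s = p then y s else 0 := by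
    intro s
    rw [← sum_mul, on_dual hu s p]
    split_ifs
    · rw [one_mul]
    · rw [zero_mul]
  rw [sum_congr rfl (fun s _ => h2 s), sum_ite_eq', if_pos (mem_univ p)]

lemma parseval {u : Fin n → Fin n → ℝ} (hu : ON u) (y : Fin n → ℝ) :
    ∑ k, (∑ s, u k s * y s) ^ 2 = ∑ p, y p ^ 2 := by
  rw [← comb_sq hu]
  exact sum_congr rfl fun p _ => by rw [comb_coef hu]

/-- Steps (1) and (2). -/
lemma lemA {M : Matrix (Fin n) (Fin n) ℝ} (hM : M.IsSymm) {u : Fin n → Fin n → ℝ} (hu : ON u)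
    {l : Fin n → ℝ} (he : ∀ i, M.mulVec (u i) = l i • u i) (ω : Fin n → ℝ) {t Λ ε ρ : ℝ}
    (hω : ∀ p, |ω p| ≤ 1) (hΛ : 0 < Λ) (hε : 0 ≤ ε)
    (hcl : ∀ k m, |l k - t| ≤ Λ → |l m - t| ≤ Λ → |∑ p, ω p * (u k p * u m p)| ≤ ε)
    (y : Fin n → ℝ) (hy : ∑ p, y p ^ 2 ≤ 1) (hρ : 0 ≤ ρ) (hρΛ : ρ ≤ Λ)
    (hMy : ∑ p, (M.mulVec y p - t * y p) ^ 2 ≤ ρ ^ 2) :
    |∑ p, ω p * y p ^ 2| ≤ n * ε + 3 * (ρ / Λ) := by
  obtain ⟨c, hc⟩ : ∃ c : Fin n → ℝ, c = fun k => ∑ s, u k s * y s := ⟨_, rfl⟩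
  obtain ⟨dv, hdv⟩ : ∃ dv : Fin n → ℝ, dv = fun k => if |l k - t| ≤ Λ then c k else 0 := ⟨_, rfl⟩
  obtain ⟨de, hde⟩ : ∃ de : Fin n → ℝ, de = fun k => if |l k - t| ≤ Λ then 0 else c k := ⟨_, rfl⟩
  have hyd : ∀ p, y p = comb u dv p + comb u de p := by
    intro p
    rw [← comb_coef hu y p]
    unfold comb
    rw [← sum_add_distrib]
    refine sum_congr rfl fun k _ => ?_
    rw [hdv, hde, hc]
    simp only
    split_ifs <;> ring
  have hcsq : ∑ k, c k ^ 2 ≤ 1 := by
    rw [hc, parseval hu]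
    exact hy
  have hdvsq : ∑ k, dv k ^ 2 ≤ 1 := by
    refine le_trans (sum_le_sum fun k _ => ?_) hcsq
    rw [hdv]
    simp only
    split_ifs
    · exact le_rfl
    · rw [zero_pow two_ne_zero]
      exact sq_nonneg _
  -- coefficients of `(M - t) y`
  have hco : ∀ k, ∑ s, u k s * (M.mulVec y s - t * y s) = (l k - t) * c k := by
    intro k
    have h1 : ∑ s, u k s * M.mulVec y s = l k * c k := by
      have h2 : dotProduct (u k) (M.mulVec y) = dotProduct (M.mulVec (u k)) y := by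
        rw [Matrix.dotProduct_mulVec, ← Matrix.mulVec_transpose, hM.eq]
      have h3 : ∑ s, u k s * M.mulVec y s = dotProduct (u k) (M.mulVec y) := rfl
      rw [h3, h2, he k, smul_dotProduct, hc]
      rfl
    rw [sum_congr rfl (fun s _ => mul_sub (u k s) (M.mulVec y s) (t * y s)), sum_sub_distrib, h1,
      hc]
    simp only
    rw [sub_mul, mul_sum]
    congr 1
    rw [mul_sum]
    exact sum_congr rfl fun s _ => by ring
  have hsum : ∑ k, ((l k - t) * c k) ^ 2 ≤ ρ ^ 2 := by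
    refine le_trans (le_of_eq ?_) hMy
    rw [← parseval hu (fun s => M.mulVec y s - t * y s)]
    exact sum_congr rfl fun k _ => by rw [hco k]
  have hdesq : ∑ k, de k ^ 2 ≤ (ρ / Λ) ^ 2 := by
    rw [div_pow, le_div_iff₀ (by positivity), sum_mul]
    refine le_trans (sum_le_sum fun k _ => ?_) hsum
    rw [hde]
    simp only
    split_ifs with h
    · rw [zero_pow two_ne_zero, zero_mul]
      exact sq_nonneg _
    · push Not at h
      rw [mul_pow, mul_comm]
      refine mul_le_mul_of_nonneg_right ?_ (sq_nonneg _)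
      rw [← sq_abs (l k - t)]
      exact pow_le_pow_left₀ hΛ.le h.le 2
  have hvsq : ∑ p, comb u dv p ^ 2 ≤ 1 := by rw [comb_sq hu]; exact hdvsq
  have hesq : ∑ p, comb u de p ^ 2 ≤ (ρ / Λ) ^ 2 := by rw [comb_sq hu]; exact hdesq
  have hr0 : 0 ≤ ρ / Λ := div_nonneg hρ hΛ.le
  have hr1 : ρ / Λ ≤ 1 := (div_le_one hΛ).2 hρΛ
  -- the three parts
  have hsplit : ∑ p, ω p * y p ^ 2 = ∑ p, ω p * (comb u dv p * comb u dv p) +
      2 * ∑ p, ω p * (comb u dv p * comb u de p) + ∑ p, ω p * comb u de p ^ 2 := by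
    rw [mul_sum, ← sum_add_distrib, ← sum_add_distrib]
    refine sum_congr rfl fun p _ => ?_
    rw [hyd p]
    ring
  have hA : |∑ p, ω p * (comb u dv p * comb u dv p)| ≤ n * ε := by
    rw [weight_comb]
    have h1 : |∑ k, ∑ m, dv k * dv m * ∑ p, ω p * (u k p * u m p)| ≤
        ∑ k, ∑ m, |dv k| * |dv m| * ε := by
      refine (abs_sum_le_sum_abs _ _).trans (sum_le_sum fun k _ => ?_)
      refine (abs_sum_le_sum_abs _ _).trans (sum_le_sum fun m _ => ?_)
      rw [abs_mul, abs_mul]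
      by_cases hk : |l k - t| ≤ Λ
      · by_cases hm : |l m - t| ≤ Λ
        · exact mul_le_mul_of_nonneg_left (hcl k m hk hm) (by positivity)
        · have : dv m = 0 := by rw [hdv]; simp only; rw [if_neg hm]
          rw [this, abs_zero, mul_zero, zero_mul, zero_mul]
      · have : dv k = 0 := by rw [hdv]; simp only; rw [if_neg hk]
        rw [this, abs_zero, zero_mul, zero_mul, zero_mul]
    refine h1.trans ?_
    have h2 : ∑ k, ∑ m, |dv k| * |dv m| * ε = (∑ k, |dv k|) ^ 2 * ε := by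
      rw [sq, sum_mul_sum, sum_mul]
      refine sum_congr rfl fun k _ => ?_
      rw [sum_mul]
    rw [h2]
    refine mul_le_mul_of_nonneg_right ?_ hε
    have h3 := sq_sum_le_card_mul_sum_sq (s := (univ : Finset (Fin n))) (f := fun k => |dv k|)
    rw [card_univ, Fintype.card_fin] at h3
    refine h3.trans ?_
    have h4 : ∑ k, |dv k| ^ 2 ≤ 1 := by
      refine le_trans (le_of_eq (sum_congr rfl fun k _ => ?_)) hdvsq
      exact sq_abs _
    exact mul_le_of_le_one_right (Nat.cast_nonneg n) h4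
  have hB : |∑ p, ω p * (comb u dv p * comb u de p)| ≤ ρ / Λ := by
    have h1 : |∑ p, ω p * (comb u dv p * comb u de p)| ≤ ∑ p, |comb u dv p| * |comb u de p| := by
      refine (abs_sum_le_sum_abs _ _).trans (sum_le_sum fun p _ => ?_)
      rw [abs_mul, abs_mul]
      exact mul_le_of_le_one_left (by positivity) (hω p)
    refine h1.trans ?_
    refine abs_le_of_sq_le_sq' ?_ hr0 |>.2
    have h2 := sum_mul_sq_le_sq_mul_sq (univ : Finset (Fin n)) (fun p => |comb u dv p|)
      (fun p => |comb u de p|)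
    refine h2.trans ?_
    have h3 : ∑ p, |comb u dv p| ^ 2 ≤ 1 := by
      refine le_trans (le_of_eq (sum_congr rfl fun k _ => ?_)) hvsq
      exact sq_abs _
    have h4 : ∑ p, |comb u de p| ^ 2 ≤ (ρ / Λ) ^ 2 := by
      refine le_trans (le_of_eq (sum_congr rfl fun k _ => ?_)) hesq
      exact sq_abs _
    calc (∑ p, |comb u dv p| ^ 2) * ∑ p, |comb u de p| ^ 2
        ≤ 1 * (ρ / Λ) ^ 2 := mul_le_mul h3 h4 (sum_nonneg fun p _ => sq_nonneg _) zero_le_one
      _ = (ρ / Λ) ^ 2 := one_mul _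
  have hC : |∑ p, ω p * comb u de p ^ 2| ≤ ρ / Λ := by
    have h1 : |∑ p, ω p * comb u de p ^ 2| ≤ ∑ p, comb u de p ^ 2 := by
      refine (abs_sum_le_sum_abs _ _).trans (sum_le_sum fun p _ => ?_)
      rw [abs_mul, abs_of_nonneg (sq_nonneg (comb u de p))]
      exact mul_le_of_le_one_left (sq_nonneg _) (hω p)
    refine h1.trans (hesq.trans ?_)
    rw [sq]
    exact mul_le_of_le_one_right hr0 hr1
  rw [hsplit]
  refine (abs_add_le _ _).trans ?_
  have h5 := abs_add_le (∑ p, ω p * (comb u dv p * comb u dv p))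
    (2 * ∑ p, ω p * (comb u dv p * comb u de p))
  rw [abs_mul, abs_two] at h5
  linarith

/-- Step (5). -/
lemma lemB (hn : 2 ≤ n) (m : Fin n → ℝ) (hm : ∑ p, m p = 2) (ξ : ℝ)
    (H : ∀ s : Fin n, 1 / (8 * (n : ℝ) ^ 2) ≤ m s → ∃ y : Fin n → ℝ, ∑ p, y p ^ 2 = 1 ∧ y s = 0 ∧
      (∀ p, y p ^ 2 ≤ m p) ∧ |∑ p : Fin n, (((p : ℕ) : ℝ) / n - ξ) * y p ^ 2| ≤ 1 / (36 * (n : ℝ) ^ 2) ∧
      (((s : ℕ) : ℝ) / n ≤ ξ → ∑ p, (if p < s then y p else 0) ^ 2 ≤ 1 / (36 * (n : ℝ))) ∧
      (ξ ≤ ((s : ℕ) : ℝ) / n → ∑ p, (if s < p then y p else 0) ^ 2 ≤ 1 / (36 * (n : ℝ)))) :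
    False := by
  have hn2 : (2 : ℝ) ≤ n := by exact_mod_cast hn
  have hn0 : (0 : ℝ) < n := by linarith
  have hconst : ∀ e : ℝ, ∑ _p : Fin n, e = n * e := by
    intro e
    rw [sum_const, card_univ, Fintype.card_fin, nsmul_eq_mul]
  have hc1 : (n : ℝ) * (1 / (8 * (n : ℝ) ^ 2)) = 1 / (8 * n) := by
    field_simp
  obtain ⟨Hs, hHs⟩ : ∃ Hs : Finset (Fin n), Hs = univ.filter (fun s => 1 / (8 * (n : ℝ) ^ 2) ≤ m s) :=
    ⟨_, rfl⟩
  have hmem : ∀ s, s ∈ Hs ↔ 1 / (8 * (n : ℝ) ^ 2) ≤ m s := by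
    intro s
    rw [hHs, mem_filter]
    exact ⟨fun h => h.2, fun h => ⟨mem_univ _, h⟩⟩
  have hlight : ∀ (y : Fin n → ℝ), (∀ p, y p ^ 2 ≤ m p) → ∀ p, p ∉ Hs →
      y p ^ 2 ≤ 1 / (8 * (n : ℝ) ^ 2) := by
    intro y hy p hp
    rw [hmem, not_le] at hp
    exact (hy p).trans hp.le
  have hpos8 : (0 : ℝ) ≤ 1 / (8 * (n : ℝ) ^ 2) := by positivity
  have hsm1 : 1 / (36 * (n : ℝ)) ≤ 1 / 72 :=
    one_div_le_one_div_of_le (by norm_num) (by linarith)
  have hsm2 : 1 / (8 * (n : ℝ)) ≤ 1 / 16 :=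
    one_div_le_one_div_of_le (by norm_num) (by linarith)
  obtain ⟨A, hA⟩ : ∃ A : Finset (Fin n), A = Hs.filter (fun s : Fin n => ((s : ℕ) : ℝ) / n ≤ ξ) := ⟨_, rfl⟩
  obtain ⟨B, hB⟩ : ∃ B : Finset (Fin n), B = Hs.filter (fun s : Fin n => ¬ ((s : ℕ) : ℝ) / n ≤ ξ) := ⟨_, rfl⟩
  have hAB : ∀ p, p ∈ Hs → p ∈ A ∨ p ∈ B := by
    intro p hp
    rw [hA, hB, mem_filter, mem_filter]
    by_cases h : ((p : ℕ) : ℝ) / n ≤ ξ
    · exact Or.inl ⟨hp, h⟩
    · exact Or.inr ⟨hp, h⟩
  have hHne : Hs.Nonempty := by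
    by_contra h
    rw [not_nonempty_iff_eq_empty] at h
    have h1 : ∑ p, m p ≤ ∑ _p : Fin n, 1 / (8 * (n : ℝ) ^ 2) := by
      refine sum_le_sum fun p _ => ?_
      have hp : p ∉ Hs := by rw [h]; exact notMem_empty p
      rw [hmem, not_le] at hp
      exact hp.le
    rw [hm, hconst, hc1] at h1
    linarith
  rcases A.eq_empty_or_nonempty with hAe | hAne
  · -- no heavy site on the left
    have hBne : B.Nonempty := by
      obtain ⟨p, hp⟩ := hHne
      rcases hAB p hp with h | h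
      · rw [hAe] at h
        exact (notMem_empty p h).elim
      · exact ⟨p, h⟩
    have htB := B.min'_mem hBne
    obtain ⟨t, ht⟩ : ∃ t, t = B.min' hBne := ⟨_, rfl⟩
    rw [← ht] at htB
    have htH : t ∈ Hs ∧ ¬ ((t : ℕ) : ℝ) / n ≤ ξ := by
      rw [hB, mem_filter] at htB
      exact htB
    obtain ⟨y, hy1, hys, hym, hyx, -, hyR⟩ := H t ((hmem t).1 htH.1)
    have hyR' := hyR (not_le.1 htH.2).le
    have h1 : ∑ p, y p ^ 2 ≤ ∑ p, ((if t < p then y p else 0) ^ 2 + 1 / (8 * (n : ℝ) ^ 2)) := by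
      refine sum_le_sum fun p _ => ?_
      rcases lt_trichotomy p t with h | h | h
      · have hp : p ∉ Hs := by
          intro hp
          rcases hAB p hp with h' | h'
          · rw [hAe] at h'
            exact notMem_empty p h'
          · have := B.min'_le p h'
            rw [← ht] at this
            exact absurd h (not_lt.2 this)
        rw [if_neg (not_lt.2 h.le), zero_pow two_ne_zero, zero_add]
        exact hlight y hym p hp
      · rw [h, hys, zero_pow two_ne_zero]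
        positivity
      · rw [if_pos h]
        linarith
    rw [sum_add_distrib, hconst, hc1, hy1] at h1
    linarith
  · rcases B.eq_empty_or_nonempty with hBe | hBne
    · have hsA := A.max'_mem hAne
      obtain ⟨s, hs⟩ : ∃ s, s = A.max' hAne := ⟨_, rfl⟩
      rw [← hs] at hsA
      have hsH : s ∈ Hs ∧ ((s : ℕ) : ℝ) / n ≤ ξ := by
        rw [hA, mem_filter] at hsA
        exact hsA
      obtain ⟨y, hy1, hys, hym, hyx, hyL, -⟩ := H s ((hmem s).1 hsH.1)
      have hyL' := hyL hsH.2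
      have h1 : ∑ p, y p ^ 2 ≤ ∑ p, ((if p < s then y p else 0) ^ 2 + 1 / (8 * (n : ℝ) ^ 2)) := by
        refine sum_le_sum fun p _ => ?_
        rcases lt_trichotomy p s with h | h | h
        · rw [if_pos h]
          linarith
        · rw [h, hys, zero_pow two_ne_zero]
          positivity
        · have hp : p ∉ Hs := by
            intro hp
            rcases hAB p hp with h' | h'
            · have := A.le_max' p h'
              rw [← hs] at this
              exact absurd h (not_lt.2 this)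
            · rw [hBe] at h'
              exact notMem_empty p h'
          rw [if_neg (not_lt.2 h.le), zero_pow two_ne_zero, zero_add]
          exact hlight y hym p hp
      rw [sum_add_distrib, hconst, hc1, hy1] at h1
      linarith
    · have hsA := A.max'_mem hAne
      obtain ⟨s, hs⟩ : ∃ s, s = A.max' hAne := ⟨_, rfl⟩
      rw [← hs] at hsA
      have hsH : s ∈ Hs ∧ ((s : ℕ) : ℝ) / n ≤ ξ := by
        rw [hA, mem_filter] at hsA
        exact hsA
      have htB := B.min'_mem hBne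
      obtain ⟨t, ht⟩ : ∃ t, t = B.min' hBne := ⟨_, rfl⟩
      rw [← ht] at htB
      have htH : t ∈ Hs ∧ ¬ ((t : ℕ) : ℝ) / n ≤ ξ := by
        rw [hB, mem_filter] at htB
        exact htB
      have hst : s < t := by
        by_contra h
        have h1 : ((t : ℕ) : ℝ) ≤ (s : ℕ) := by
          exact_mod_cast (not_lt.1 h)
        exact htH.2 ((div_le_div_of_nonneg_right h1 hn0.le).trans hsH.2)
      have hmid : ∀ p, s < p → p < t → p ∉ Hs := by
        intro p h1 h2 hp
        rcases hAB p hp with h' | h'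
        · have := A.le_max' p h'
          rw [← hs] at this
          exact absurd h1 (not_lt.2 this)
        · have := B.min'_le p h'
          rw [← ht] at this
          exact absurd h2 (not_lt.2 this)
      have hx1 : ∀ p : Fin n, ((p : ℕ) : ℝ) / n ≤ 1 := by
        intro p
        rw [div_le_one hn0]
        exact_mod_cast p.2.le
      have hx0 : ∀ p : Fin n, 0 ≤ ((p : ℕ) : ℝ) / n := by
        intro p
        positivity
      have hxm : ∀ p q : Fin n, p ≤ q → ((p : ℕ) : ℝ) / n ≤ ((q : ℕ) : ℝ) / n := by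
        intro p q h
        refine div_le_div_of_nonneg_right ?_ hn0.le
        exact_mod_cast h
      -- the vector vanishing at `s`
      obtain ⟨y, hy1, hys, hym, hyx, hyL, -⟩ := H s ((hmem s).1 hsH.1)
      have hyL' := hyL hsH.2
      have h1 : ∑ p : Fin n, (((t : ℕ) : ℝ) / n - ((p : ℕ) : ℝ) / n) * y p ^ 2 ≤
          ∑ p, ((if p < s then y p else 0) ^ 2 + 1 / (8 * (n : ℝ) ^ 2)) := by
        refine sum_le_sum fun p _ => ?_
        rcases lt_trichotomy p s with h | h | h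
        · rw [if_pos h]
          have : (((t : ℕ) : ℝ) / n - ((p : ℕ) : ℝ) / n) * y p ^ 2 ≤ 1 * y p ^ 2 :=
            mul_le_mul_of_nonneg_right (by linarith [hx1 t, hx0 p]) (sq_nonneg _)
          linarith
        · rw [h, hys, zero_pow two_ne_zero, mul_zero]
          positivity
        · rw [if_neg (not_lt.2 h.le), zero_pow two_ne_zero, zero_add]
          rcases lt_or_ge p t with h' | h'
          · have : (((t : ℕ) : ℝ) / n - ((p : ℕ) : ℝ) / n) * y p ^ 2 ≤ 1 * y p ^ 2 :=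
              mul_le_mul_of_nonneg_right (by linarith [hx1 t, hx0 p]) (sq_nonneg _)
            have := hlight y hym p (hmid p h h')
            linarith
          · have : (((t : ℕ) : ℝ) / n - ((p : ℕ) : ℝ) / n) * y p ^ 2 ≤ 0 :=
              mul_nonpos_of_nonpos_of_nonneg (by linarith [hxm t p h']) (sq_nonneg _)
            linarith
      rw [sum_add_distrib, hconst, hc1] at h1
      have h2 : ((t : ℕ) : ℝ) / n - ξ = ∑ p : Fin n, (((t : ℕ) : ℝ) / n - ((p : ℕ) : ℝ) / n) * y p ^ 2 +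
          ∑ p : Fin n, (((p : ℕ) : ℝ) / n - ξ) * y p ^ 2 := by
        rw [← sum_add_distrib]
        have : ∀ p : Fin n, (((t : ℕ) : ℝ) / n - ((p : ℕ) : ℝ) / n) * y p ^ 2 +
            (((p : ℕ) : ℝ) / n - ξ) * y p ^ 2 = (((t : ℕ) : ℝ) / n - ξ) * y p ^ 2 := by
          intro p
          ring
        rw [sum_congr rfl (fun p _ => this p), ← mul_sum, hy1, mul_one]
      have h3 := (abs_le.1 hyx).2
      -- the vector vanishing at `t`
      obtain ⟨y', hy1', hys', hym', hyx', -, hyR⟩ := H t ((hmem t).1 htH.1)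
      have hyR' := hyR (not_le.1 htH.2).le
      have h4 : ∑ p : Fin n, (((p : ℕ) : ℝ) / n - ((s : ℕ) : ℝ) / n) * y' p ^ 2 ≤
          ∑ p, ((if t < p then y' p else 0) ^ 2 + 1 / (8 * (n : ℝ) ^ 2)) := by
        refine sum_le_sum fun p _ => ?_
        rcases lt_trichotomy p t with h | h | h
        · rw [if_neg (not_lt.2 h.le), zero_pow two_ne_zero, zero_add]
          rcases lt_or_ge s p with h' | h'
          · have : (((p : ℕ) : ℝ) / n - ((s : ℕ) : ℝ) / n) * y' p ^ 2 ≤ 1 * y' p ^ 2 :=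
              mul_le_mul_of_nonneg_right (by linarith [hx1 p, hx0 s]) (sq_nonneg _)
            have := hlight y' hym' p (hmid p h' h)
            linarith
          · have : (((p : ℕ) : ℝ) / n - ((s : ℕ) : ℝ) / n) * y' p ^ 2 ≤ 0 :=
              mul_nonpos_of_nonpos_of_nonneg (by linarith [hxm p s h']) (sq_nonneg _)
            linarith
        · rw [h, hys', zero_pow two_ne_zero, mul_zero]
          positivity
        · rw [if_pos h]
          have : (((p : ℕ) : ℝ) / n - ((s : ℕ) : ℝ) / n) * y' p ^ 2 ≤ 1 * y' p ^ 2 :=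
            mul_le_mul_of_nonneg_right (by linarith [hx1 p, hx0 s]) (sq_nonneg _)
          linarith
      rw [sum_add_distrib, hconst, hc1] at h4
      have h5 : ξ - ((s : ℕ) : ℝ) / n = ∑ p : Fin n, (((p : ℕ) : ℝ) / n - ((s : ℕ) : ℝ) / n) * y' p ^ 2 -
          ∑ p : Fin n, (((p : ℕ) : ℝ) / n - ξ) * y' p ^ 2 := by
        rw [← sum_sub_distrib]
        have : ∀ p : Fin n, (((p : ℕ) : ℝ) / n - ((s : ℕ) : ℝ) / n) * y' p ^ 2 -
            (((p : ℕ) : ℝ) / n - ξ) * y' p ^ 2 = (ξ - ((s : ℕ) : ℝ) / n) * y' p ^ 2 := by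
          intro p
          ring
        rw [sum_congr rfl (fun p _ => this p), ← mul_sum, hy1', mul_one]
      have h6 := (abs_le.1 hyx').1
      have h7 : ((s : ℕ) : ℝ) + 1 ≤ (t : ℕ) := by
        have : (s : ℕ) < (t : ℕ) := hst
        exact_mod_cast this
      have h8 : 1 / (n : ℝ) ≤ ((t : ℕ) : ℝ) / n - ((s : ℕ) : ℝ) / n := by
        rw [← sub_div]
        exact div_le_div_of_nonneg_right (by linarith) hn0.le
      have h9 : 1 / (36 * (n : ℝ) ^ 2) ≤ 1 / (36 * (n : ℝ)) := by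
        refine one_div_le_one_div_of_le (by positivity) ?_
        nlinarith
      have h10 : 1 / (36 * (n : ℝ)) = (1 / n) / 36 := by field_simp
      have h11 : 1 / (8 * (n : ℝ)) = (1 / n) / 8 := by field_simp
      have h12 : 0 < 1 / (n : ℝ) := by positivity
      rw [h10] at h9 hyL' hyR'
      rw [h11] at h1 h4
      linarith

lemma jac_symm (n : ℕ) (a r : ℕ → ℝ) : (jac n a r).IsSymm := by
  refine Matrix.IsSymm.ext fun i j => ?_
  unfold jac
  rw [Matrix.of_apply, Matrix.of_apply]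
  rcases lt_trichotomy (i : ℕ) (j : ℕ) with h | h | h
  · rw [if_neg (by omega), if_neg (by omega), if_neg (by omega : ¬ (i : ℕ) = j)]
    by_cases h' : (i : ℕ) + 1 = j
    · rw [if_pos h', if_pos h']
    · rw [if_neg h', if_neg h', if_neg (by omega)]
  · rw [if_pos h, if_pos h.symm, h]
  · rw [if_neg (by omega), if_neg (by omega : ¬ (i : ℕ) = j)]
    by_cases h' : (j : ℕ) + 1 = i
    · rw [if_pos h', if_neg (by omega), if_pos h']
    · rw [if_neg h', if_neg (by omega), if_neg (by omega), if_neg h']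

lemma qf_XX (x y : Fin n → ℝ) : qf (XX n) x y = ∑ p : Fin n, ((p : ℕ) : ℝ) / n * (x p * y p) := by
  unfold qf XX dotProduct
  refine sum_congr rfl fun p _ => ?_
  rw [Matrix.mulVec_diagonal]
  ring

end ClusterL

open ClusterL in
/-- **The cluster lemma.** -/
theorem t_cluster (h : S_trunc) : S_cluster := by
  intro n a r w l u hn hw hl hu he H1 H2 i j hij
  by_contra hgap
  push Not at hgap
  have hn2 : (2 : ℝ) ≤ n := by exact_mod_cast hn
  have hn0 : (0 : ℝ) < n := by linarith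
  obtain ⟨g, hg⟩ : ∃ g, g = l j - l i := ⟨_, rfl⟩
  rw [← hg] at hgap
  have hg0 : 0 ≤ g := by
    rw [hg]
    exact sub_nonneg.2 (hl hij.le)
  obtain ⟨t, ht⟩ : ∃ t, t = l i := ⟨_, rfl⟩
  obtain ⟨ξ, hξ⟩ : ∃ ξ, ξ = qf (XX n) (u i) (u i) := ⟨_, rfl⟩
  have hx1 : ∀ p : Fin n, ((p : ℕ) : ℝ) / n ≤ 1 := by
    intro p
    rw [div_le_one hn0]
    exact_mod_cast p.2.le
  have hx0 : ∀ p : Fin n, 0 ≤ ((p : ℕ) : ℝ) / n := by
    intro p
    positivity
  have hunit : ∀ k, ∑ p, u k p ^ 2 = 1 := by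
    intro k
    have := hu k k
    rw [if_pos rfl] at this
    rw [← this]
    exact sum_congr rfl fun p _ => sq _
  have hξ0 : 0 ≤ ξ := by
    rw [hξ, qf_XX]
    exact sum_nonneg fun p _ => mul_nonneg (hx0 p) (mul_self_nonneg _)
  have hξ1 : ξ ≤ 1 := by
    rw [hξ, qf_XX, ← hunit i]
    refine sum_le_sum fun p _ => ?_
    rw [← sq]
    exact mul_le_of_le_one_left (sq_nonneg _) (hx1 p)
  have hω : ∀ p : Fin n, |((p : ℕ) : ℝ) / n - ξ| ≤ 1 := by
    intro p
    rw [abs_le]
    constructor <;> linarith [hx0 p, hx1 p]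
  obtain ⟨Λ, hΛ⟩ : ∃ Λ, Λ = w / (192 * (n : ℝ) ^ 3) := ⟨_, rfl⟩
  have hΛ0 : 0 < Λ := by
    rw [hΛ]
    positivity
  obtain ⟨ε, hε⟩ : ∃ ε, ε = 1 / (48 * (n : ℝ) ^ 3) := ⟨_, rfl⟩
  have hε0 : 0 < ε := by
    rw [hε]
    positivity
  have hwε : w / (96 * (n : ℝ) ^ 3) = w * ε / 2 := by
    rw [hε]
    field_simp
    norm_num
  have hΛε : Λ = w * ε / 4 := by
    rw [hΛ, hε]
    field_simp
    norm_num
  have hqsym : ∀ x y : Fin n → ℝ, qf (XX n) x y = qf (XX n) y x := by
    intro x y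
    rw [qf_XX, qf_XX]
    exact sum_congr rfl fun p _ => by rw [mul_comm (x p)]
  -- step (1)
  have hcl : ∀ k m, |l k - t| ≤ Λ → |l m - t| ≤ Λ →
      |∑ p : Fin n, (((p : ℕ) : ℝ) / n - ξ) * (u k p * u m p)| ≤ ε := by
    intro k m hk hm
    have e1 : ∑ p : Fin n, (((p : ℕ) : ℝ) / n - ξ) * (u k p * u m p) =
        qf (XX n) (u k) (u m) - ξ * (if k = m then 1 else 0) := by
      rw [qf_XX, ← hu k m, mul_sum, ← sum_sub_distrib]
      exact sum_congr rfl fun p _ => by ring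
    rw [e1]
    by_cases hkm : k = m
    · subst hkm
      rw [if_pos rfl, mul_one]
      have hk' := abs_le.1 hk
      rcases lt_trichotomy k i with h' | h' | h'
      · have h1 := H2 k i h'
        rw [← hξ, hwε, ← ht] at h1
        have h2 : w * |qf (XX n) (u k) (u k) - ξ| ≤ w * ε := by linarith [hk'.1, hk'.2]
        exact le_of_mul_le_mul_left h2 hw
      · subst h'
        rw [← hξ, sub_self, abs_zero]
        exact hε0.le
      · have h1 := H2 i k h'
        rw [← hξ, hwε, ← ht, abs_sub_comm] at h1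
        have h2 : w * |qf (XX n) (u k) (u k) - ξ| ≤ w * ε := by linarith [hk'.1, hk'.2]
        exact le_of_mul_le_mul_left h2 hw
    · rw [if_neg hkm, mul_zero, sub_zero]
      have hk' := abs_le.1 hk
      have hm' := abs_le.1 hm
      have hkey : 2 * w * |qf (XX n) (u k) (u m)| ≤ w * ε := by
        rcases lt_or_gt_of_ne hkm with h' | h'
        · have h1 := H1 k m h'
          rw [hwε] at h1
          linarith [hk'.1, hk'.2, hm'.1, hm'.2]
        · have h1 := H1 m k h'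
          rw [hwε, hqsym] at h1
          linarith [hk'.1, hk'.2, hm'.1, hm'.2]
      have h3 : w * |qf (XX n) (u k) (u m)| ≤ w * ε := by
        have := mul_nonneg hw.le (abs_nonneg (qf (XX n) (u k) (u m)))
        linarith
      exact le_of_mul_le_mul_left h3 hw
  -- step (2)
  have hρ : (9 * n * g) ≤ Λ / (432 * (n : ℝ) ^ 2) := by
    have h1 : 9 * (n : ℝ) * g ≤ 9 * n * (w / (1000000 * (n : ℝ) ^ 6)) :=
      mul_le_mul_of_nonneg_left hgap.le (by positivity)
    refine h1.trans ?_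
    rw [hΛ, div_div, mul_div_assoc', div_le_div_iff₀ (by positivity) (by positivity)]
    have h2 : (1 : ℝ) ≤ n := by linarith
    have h3 : 9 * (n : ℝ) * w * (192 * (n : ℝ) ^ 3 * (432 * (n : ℝ) ^ 2)) =
        746496 * (w * (n : ℝ) ^ 6) := by ring
    have h4 : w * (1000000 * (n : ℝ) ^ 6) = 1000000 * (w * (n : ℝ) ^ 6) := by ring
    rw [h3, h4]
    have h5 : 0 ≤ w * (n : ℝ) ^ 6 := by positivity
    linarith
  have hρ0 : 0 ≤ 9 * n * g := by positivity
  have hA : ∀ y : Fin n → ℝ, ∑ p, y p ^ 2 ≤ 1 →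
      ∑ p, ((jac n a r).mulVec y p - t * y p) ^ 2 ≤ (9 * n * g) ^ 2 →
      |∑ p : Fin n, (((p : ℕ) : ℝ) / n - ξ) * y p ^ 2| ≤ 1 / (36 * (n : ℝ) ^ 2) := by
    intro y hy hMy
    have h1 : Λ / (432 * (n : ℝ) ^ 2) ≤ Λ := by
      refine div_le_self hΛ0.le ?_
      nlinarith
    have h2 := lemA (jac_symm n a r) hu he (fun p : Fin n => ((p : ℕ) : ℝ) / n - ξ) hω hΛ0 hε0.le
      hcl y hy hρ0 (hρ.trans h1) hMy
    refine h2.trans ?_
    have h3 : 9 * n * g / Λ ≤ 1 / (432 * (n : ℝ) ^ 2) := by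
      rw [div_le_iff₀ hΛ0]
      refine hρ.trans (le_of_eq ?_)
      field_simp
    have h4 : (n : ℝ) * ε = 1 / (48 * (n : ℝ) ^ 2) := by
      rw [hε]
      field_simp
    have h5 : 1 / (36 * (n : ℝ) ^ 2) = 1 / (48 * (n : ℝ) ^ 2) + 3 * (1 / (432 * (n : ℝ) ^ 2)) := by
      field_simp
      norm_num
    rw [h5, h4]
    linarith
  -- unit vectors in the span of `u i`, `u j`
  have hne : i ≠ j := ne_of_lt hij
  have hU : ∀ α β : ℝ, α ^ 2 + β ^ 2 = 1 →
      ∑ p, (α * u i p + β * u j p) ^ 2 = 1 ∧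
      ∑ p, ((jac n a r).mulVec (fun q => α * u i q + β * u j q) p -
        t * (α * u i p + β * u j p)) ^ 2 ≤ g ^ 2 ∧
      ∀ p, (α * u i p + β * u j p) ^ 2 ≤ u i p ^ 2 + u j p ^ 2 := by
    intro α β hαβ
    refine ⟨?_, ?_, ?_⟩
    · have e1 : ∀ p, (α * u i p + β * u j p) ^ 2 =
          α ^ 2 * u i p ^ 2 + 2 * α * β * (u i p * u j p) + β ^ 2 * u j p ^ 2 := by
        intro p
        ring
      rw [sum_congr rfl (fun p _ => e1 p), sum_add_distrib, sum_add_distrib, ← mul_sum, ← mul_sum,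
        ← mul_sum, hunit, hunit, hu i j, if_neg hne, mul_zero, add_zero, mul_one, mul_one]
      exact hαβ
    · have e1 : (fun q => α * u i q + β * u j q) = α • u i + β • u j := by
        funext q
        rfl
      have e2 : ∀ p, (jac n a r).mulVec (fun q => α * u i q + β * u j q) p -
          t * (α * u i p + β * u j p) = (β * g) * u j p := by
        intro p
        rw [e1, Matrix.mulVec_add, Matrix.mulVec_smul, Matrix.mulVec_smul, he i, he j]
        simp only [Pi.add_apply, Pi.smul_apply, smul_eq_mul]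
        rw [hg, ht]
        ring
      rw [sum_congr rfl (fun p _ => by rw [e2 p, mul_pow]), ← mul_sum, hunit, mul_one, mul_pow]
      refine mul_le_of_le_one_left (sq_nonneg _) ?_
      nlinarith [sq_nonneg α]
    · intro p
      have h1 : u i p ^ 2 + u j p ^ 2 - (α * u i p + β * u j p) ^ 2 =
          (α * u j p - β * u i p) ^ 2 := by
        have h2 : u i p ^ 2 + u j p ^ 2 = (α ^ 2 + β ^ 2) * (u i p ^ 2 + u j p ^ 2) := by
          rw [hαβ, one_mul]
        rw [h2]
        ring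
      have := sq_nonneg (α * u j p - β * u i p)
      linarith
  -- step (5)
  refine lemB hn (fun p => u i p ^ 2 + u j p ^ 2) ?_ ξ ?_
  · rw [sum_add_distrib, hunit, hunit]
    norm_num
  intro s hs
  obtain ⟨S, hS⟩ : ∃ S, S = Real.sqrt (u i s ^ 2 + u j s ^ 2) := ⟨_, rfl⟩
  have hm0 : 0 < u i s ^ 2 + u j s ^ 2 := lt_of_lt_of_le (by positivity) hs
  have hS0 : 0 < S := by
    rw [hS]
    exact Real.sqrt_pos.2 hm0
  have hSsq : S ^ 2 = u i s ^ 2 + u j s ^ 2 := by
    rw [hS]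
    exact Real.sq_sqrt hm0.le
  have hab : (u j s / S) ^ 2 + (-(u i s) / S) ^ 2 = 1 := by
    rw [div_pow, div_pow, neg_sq, ← add_div, add_comm, ← hSsq, div_self (by positivity)]
  have hab' : (u i s / S) ^ 2 + (u j s / S) ^ 2 = 1 := by
    rw [div_pow, div_pow, ← add_div, ← hSsq, div_self (by positivity)]
  obtain ⟨y1, y2, y3⟩ := hU _ _ hab
  obtain ⟨z1, z2, z3⟩ := hU _ _ hab'
  have hg9 : g ^ 2 ≤ (9 * n * g) ^ 2 := by
    refine pow_le_pow_left₀ hg0 ?_ 2
    nlinarith
  have hys : u j s / S * u i s + -(u i s) / S * u j s = 0 := by ring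
  have hzs : 1 / (3 * (n : ℝ)) ≤ |u i s / S * u i s + u j s / S * u j s| := by
    have e1 : u i s / S * u i s + u j s / S * u j s = S := by
      have : u i s / S * u i s + u j s / S * u j s = (u i s ^ 2 + u j s ^ 2) / S := by ring
      rw [this, ← hSsq, sq, mul_div_assoc, div_self hS0.ne', mul_one]
    rw [e1, abs_of_pos hS0]
    refine abs_le_of_sq_le_sq' ?_ hS0.le |>.2
    rw [hSsq]
    refine le_trans ?_ hs
    rw [div_pow, one_pow]
    refine one_div_le_one_div_of_le (by positivity) ?_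
    nlinarith [sq_nonneg (n : ℝ)]
  obtain ⟨y, hy⟩ : ∃ y : Fin n → ℝ, y = fun p => u j s / S * u i p + -(u i s) / S * u j p :=
    ⟨_, rfl⟩
  have hy' : ∀ p, y p = u j s / S * u i p + -(u i s) / S * u j p := fun p => by rw [hy]
  rw [← hy] at y2
  simp only [← hy'] at y1 y3 y2 hys
  obtain ⟨hL, hR⟩ := h n a r t g y
    (fun p => u i s / S * u i p + u j s / S * u j p) s hg0 y1 z1 y2 z2 hys hzs
  refine ⟨y, y1, hys, y3, hA y y1.le (y2.trans hg9), ?_, ?_⟩
  · intro hsξ
    obtain ⟨yL, hyL⟩ : ∃ yL : Fin n → ℝ, yL = fun p => if p < s then y p else 0 := ⟨_, rfl⟩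
    have hyL' : ∀ p, yL p = if p < s then y p else 0 := fun p => by rw [hyL]
    rw [← hyL] at hL
    simp only [← hyL'] at hL ⊢
    have h1 : ∑ p, yL p ^ 2 ≤ 1 := by
      rw [← y1]
      refine sum_le_sum fun p _ => ?_
      rw [hyL']
      split_ifs
      · exact le_rfl
      · rw [zero_pow two_ne_zero]
        exact sq_nonneg _
    have h2 := (abs_le.1 (hA yL h1 hL)).1
    have h3 : 1 / (n : ℝ) * ∑ p, yL p ^ 2 ≤ -∑ p : Fin n, (((p : ℕ) : ℝ) / n - ξ) * yL p ^ 2 := by
      rw [mul_sum, ← sum_neg_distrib]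
      refine sum_le_sum fun p _ => ?_
      rw [← neg_mul]
      by_cases hp : p < s
      · refine mul_le_mul_of_nonneg_right ?_ (sq_nonneg _)
        have h4 : ((p : ℕ) : ℝ) + 1 ≤ (s : ℕ) := by
          have : (p : ℕ) < (s : ℕ) := hp
          exact_mod_cast this
        have h5 : (((p : ℕ) : ℝ) + 1) / n ≤ ((s : ℕ) : ℝ) / n :=
          div_le_div_of_nonneg_right h4 hn0.le
        rw [add_div] at h5
        linarith
      · rw [hyL', if_neg hp, zero_pow two_ne_zero, mul_zero, mul_zero]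
    have h6 : 1 / (n : ℝ) * ∑ p, yL p ^ 2 ≤ 1 / (n : ℝ) * (1 / (36 * (n : ℝ))) := by
      refine h3.trans ?_
      have : 1 / (n : ℝ) * (1 / (36 * (n : ℝ))) = 1 / (36 * (n : ℝ) ^ 2) := by
        field_simp
      rw [this]
      linarith
    exact le_of_mul_le_mul_left h6 (by positivity)
  · intro hsξ
    obtain ⟨yL, hyL⟩ : ∃ yL : Fin n → ℝ, yL = fun p => if s < p then y p else 0 := ⟨_, rfl⟩
    have hyL' : ∀ p, yL p = if s < p then y p else 0 := fun p => by rw [hyL]
    rw [← hyL] at hR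
    simp only [← hyL'] at hR ⊢
    have h1 : ∑ p, yL p ^ 2 ≤ 1 := by
      rw [← y1]
      refine sum_le_sum fun p _ => ?_
      rw [hyL']
      split_ifs
      · exact le_rfl
      · rw [zero_pow two_ne_zero]
        exact sq_nonneg _
    have h2 := (abs_le.1 (hA yL h1 hR)).2
    have h3 : 1 / (n : ℝ) * ∑ p, yL p ^ 2 ≤ ∑ p : Fin n, (((p : ℕ) : ℝ) / n - ξ) * yL p ^ 2 := by
      rw [mul_sum]
      refine sum_le_sum fun p _ => ?_
      by_cases hp : s < p
      · refine mul_le_mul_of_nonneg_right ?_ (sq_nonneg _)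
        have h4 : ((s : ℕ) : ℝ) + 1 ≤ (p : ℕ) := by
          have : (s : ℕ) < (p : ℕ) := hp
          exact_mod_cast this
        have h5 : (((s : ℕ) : ℝ) + 1) / n ≤ ((p : ℕ) : ℝ) / n :=
          div_le_div_of_nonneg_right h4 hn0.le
        rw [add_div] at h5
        linarith
      · rw [hyL', if_neg hp, zero_pow two_ne_zero, mul_zero, mul_zero]
    have h6 : 1 / (n : ℝ) * ∑ p, yL p ^ 2 ≤ 1 / (n : ℝ) * (1 / (36 * (n : ℝ))) := by
      refine h3.trans ?_
      have : 1 / (n : ℝ) * (1 / (36 * (n : ℝ))) = 1 / (36 * (n : ℝ) ^ 2) := by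
        field_simp
      rw [this]
      linarith
    exact le_of_mul_le_mul_left h6 (by positivity)

end Pool.Agent.H717.NL
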